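import Pool.Agent.helper20.VVO.Spec

set_option autoImplicit false

open Filter Topology

namespace Pool.Agent.VVO

open Pool.Agent.PB Pool.Agent.ISO Pool.Agent.ISA

lemma OND_num (n G Q : ℕ) (hG : 4 ≤ G) (hQ : n + G + 2 ≤ Q) :
    (4 * n * G ^ 2 + 1) * Q ^ 10 + 10 * ((4 * n * G ^ 2 + 1) + 1) ^ 2 ≤ Q ^ 30 := by
  have hQ6 : 6 ≤ Q := by omega
  have hn : n ≤ Q := by omega
  have hG' : G ≤ Q := by omega
  have h3 : 4 * n * G ^ 2 ≤ 4 * Q ^ 3 := by
    calc 4 * n * G ^ 2 ≤ 4 * Q * Q ^ 2 := by gcongr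
      _ = 4 * Q ^ 3 := by ring
  have h1 : 1 ≤ Q ^ 3 := Nat.one_le_pow _ _ (by omega)
  have h216 : 216 ≤ Q ^ 3 := by
    calc 216 = 6 ^ 3 := by norm_num
      _ ≤ Q ^ 3 := Nat.pow_le_pow_left hQ6 3
  have hK : 4 * n * G ^ 2 + 1 + 1 ≤ Q ^ 4 := by
    have h4 : Q ^ 4 = Q * Q ^ 3 := by ring
    have h5 : 6 * Q ^ 3 ≤ Q * Q ^ 3 := Nat.mul_le_mul_right _ hQ6
    omega
  have hK1 : 4 * n * G ^ 2 + 1 ≤ Q ^ 4 := by omega
  have hA : (4 * n * G ^ 2 + 1) * Q ^ 10 ≤ Q ^ 14 := by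
    calc (4 * n * G ^ 2 + 1) * Q ^ 10 ≤ Q ^ 4 * Q ^ 10 := Nat.mul_le_mul_right _ hK1
      _ = Q ^ 14 := by ring
  have hB : 10 * ((4 * n * G ^ 2 + 1) + 1) ^ 2 ≤ Q ^ 14 := by
    calc 10 * ((4 * n * G ^ 2 + 1) + 1) ^ 2 ≤ Q ^ 3 * (Q ^ 4) ^ 2 := by
          apply Nat.mul_le_mul
          · omega
          · exact Nat.pow_le_pow_left hK 2
      _ = Q ^ 11 := by ring
      _ ≤ Q ^ 14 := Nat.pow_le_pow_right (by omega) (by norm_num)
  have hC : 2 * Q ^ 14 ≤ Q ^ 15 := by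
    have h5 : Q ^ 15 = Q * Q ^ 14 := by ring
    rw [h5]
    exact Nat.mul_le_mul_right _ (by omega)
  have hD : Q ^ 15 ≤ Q ^ 30 := Nat.pow_le_pow_right (by omega) (by norm_num)
  omega

theorem OND (hONE : ONE_stmt) (hTDT : TDT_stmt) (hCIR : ISO.CIR_stmt) (hCNT : ISO.CNT_stmt) : OND_stmt := by
  intro n w N k l j m B G Q p f h hl hlk hch hG hP hH hQ
  obtain ⟨q, W, hq, hqB, hWs, hWf, hWp⟩ := hP
  have hGr : (4 : ℝ) ≤ G := by exact_mod_cast hG
  have hG0 : (0 : ℝ) < G := by linarith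
  obtain ⟨L, hL1, hL2, hL3⟩ := hONE n w N k l j m q (4 * n * G ^ 2 + 1) p (1 / G) f h W {F | Size std F (Q ^ 10)} hl hlk hch hq hWf
    (by
      intro x hx1 hx2
      have h1 := hWp x hx1 hx2
      refine h1.trans (le_of_eq ?_)
      rw [Finset.card_filter]
      push_cast
      refine Finset.sum_congr rfl fun i _ => ?_
      unfold ind
      by_cases hh : wit (W i) x ∈ Set.Icc 1 j
      · rw [if_pos hh, if_pos (show 1 ≤ wit (W i) x ∧ wit (W i) x ≤ j from hh)]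
      · rw [if_neg hh, if_neg (show ¬ (1 ≤ wit (W i) x ∧ wit (W i) x ≤ j) from hh)])
    (by
      intro b
      refine hCIR.2.2.1 n 1 (Q ^ 10) _ (hCIR.2.1 n b) ?_
      exact Nat.one_le_pow _ _ (by omega))
    (by
      intro t S i X u a F _ _ hF
      exact hTDT n w k N l a B Q (W t) S i X u F (hWs t) (by omega) hF)
    (by positivity)
    (by
      rw [div_le_div_iff₀ hG0 (by norm_num)]
      linarith)
    (by
      have hlog : Real.log 2 ≤ 1 := by
        have := Real.log_two_lt_d9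
        linarith
      have h1 : ((1 : ℝ) / G) ^ 2 * ((4 * n * G ^ 2 + 1 : ℕ) : ℝ) = 4 * n + 1 / G ^ 2 := by
        push_cast
        field_simp
      rw [h1]
      have h2 : (n : ℝ) * Real.log 2 ≤ n * 1 := mul_le_mul_of_nonneg_left hlog (Nat.cast_nonneg n)
      have h3 : (0 : ℝ) < 1 / G ^ 2 := by positivity
      linarith)
    (by
      have h1 : (k : ℝ) * (4 * (1 / G)) = 4 * k / G := by ring
      rw [h1]
      exact hH)
  classical
  refine ⟨fun x => decide (¬ (4 * n * G ^ 2 + 1) < 2 * (Finset.univ.filter fun t => L t x = true).card), ?_, ?_, ?_⟩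
  · have h1 := hCNT (Fin (4 * n * G ^ 2 + 1)) n (Q ^ 10) L
      (fun x => decide (¬ (4 * n * G ^ 2 + 1) < 2 * (Finset.univ.filter fun t => L t x = true).card))
      (fun c => ¬ (4 * n * G ^ 2 + 1) < 2 * c) hL1 (by
        intro x
        rw [decide_eq_true_iff])
    rw [Fintype.card_fin] at h1
    exact hCIR.2.2.1 n _ _ _ h1 (OND_num n G Q hG (by omega))
  · intro x hx
    have h1 := hL2 x hx
    simp only [decide_eq_true_eq]
    exact fun h2 => absurd (h1.trans h2) (lt_irrefl _)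
  · intro x hx
    have h1 := hL3 x hx
    simp only [decide_eq_false_iff_not, not_not]
    exact h1

end Pool.Agent.VVO
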